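import Pool.Agent.Lib.MP_53e617_al.SC.F3

/-!
# Rationals that are stable commutator lengths in the free group of rank two

Every rational number `q ≥ (j + 7) / 2` whose denominator is at most `2 ^ (2 ^ j)` is the stable
commutator length of an element of the commutator subgroup of the free group of rank two. In other
words, every rational number `q ≥ (1 / 2) log₂ log₂ den(q) + 4` is such a value.

The commutator length of `g` is `sInf {k | g is a product of k commutators}`, as in the frozen
statement of the problem.
-/

open Filter

namespace Pool.Agent.Results.MP_53e617_al.LogLogSpectrum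

/-- For all natural numbers `j` and all rational numbers `q ≥ (j + 7) / 2` with denominator at most
`2 ^ (2 ^ j)` there is an element `g` of the free group on two generators which is a product of
commutators and whose stable commutator length `lim cl(g ^ n) / n` is `q`. -/
theorem result (j : ℕ) (q : ℚ) (hd : q.den ≤ 2 ^ (2 ^ j)) (hq : ((j : ℚ) + 7) / 2 ≤ q) :
    ∃ g : FreeGroup (Fin 2),
      (∃ k : ℕ, ∃ f : Fin k → FreeGroup (Fin 2) × FreeGroup (Fin 2),
          (List.ofFn (fun i => (f i).1 * (f i).2 * (f i).1⁻¹ * (f i).2⁻¹)).prod = g) ∧
      Tendsto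
        (fun n : ℕ =>
          ((sInf {k : ℕ | ∃ f : Fin k → FreeGroup (Fin 2) × FreeGroup (Fin 2),
              (List.ofFn (fun i => (f i).1 * (f i).2 * (f i).1⁻¹ * (f i).2⁻¹)).prod = g ^ n} : ℕ) : ℝ)
            / (n : ℝ))
        atTop (nhds (q : ℝ)) :=
  Pool.Agent.SC.main j q hd hq

end Pool.Agent.Results.MP_53e617_al.LogLogSpectrum
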